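import Pool.Agent.Lib.MP_9322ca_co.Rich3

/-!
# Families of triples with few similarity ratios

If the similar pairs of a family `S` of triples of an `n`-element set of reals have at most `G ^ 2`
different similarity ratios then `|S| ^ 2` is at most `C n ^ 4 (1 + log G)` times the number of
homothety classes.
-/

set_option autoImplicit false

namespace Pool.Agent.Lib.MP_9322ca_co

open Finset
open Pool.Agent.Results.MP_9322ca_co.ThetaKGeFour

open Classical in
/-- homothetic pairs of a family of sets -/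
noncomputable def spairs (S : Finset (Finset ℝ)) : Finset (Finset ℝ × Finset ℝ) :=
  (S ×ˢ S).filter (fun p => Quotient.mk homothetySetoid p.1 = Quotient.mk homothetySetoid p.2)

/-- Cauchy-Schwarz for a family of triples -/
lemma cauchyS (X : Finset ℝ) (S : Finset (Finset ℝ)) (hS : S ⊆ X.powersetCard 3) :
    (S.card : ℝ) ^ 2 ≤ (classCount 3 X : ℝ) * ((spairs S).card : ℝ) := by
  classical
  set mk := Quotient.mk homothetySetoid with hmk
  have h1 : S.card = ∑ c ∈ S.image mk, (S.filter (fun A => mk A = c)).card :=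
    card_eq_sum_card_image mk S
  have h2 : (spairs S).card = ∑ c ∈ S.image mk, (S.filter (fun A => mk A = c)).card ^ 2 := by
    have e1 : (spairs S).card = ∑ A ∈ S, (S.filter (fun A' => mk A' = mk A)).card := by
      unfold spairs
      rw [card_filter, sum_product]
      apply sum_congr rfl
      intro A _
      rw [card_filter]
      apply sum_congr rfl
      intro B _
      simp only [hmk, eq_comm]
    rw [e1, ← sum_fiberwise_of_maps_to (fun A hA => mem_image_of_mem mk hA)]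
    apply sum_congr rfl
    intro c _
    have : ∀ A ∈ S.filter (fun A => mk A = c),
        (S.filter (fun A' => mk A' = mk A)).card = (S.filter (fun A' => mk A' = c)).card := by
      intro A hA
      rw [mem_filter] at hA
      rw [hA.2]
    rw [sum_congr rfl this, sum_const, smul_eq_mul, sq]
  have h3 : ((S.image mk).card : ℝ) ≤ classCount 3 X := by
    rw [classCount_eq]
    exact_mod_cast card_le_card (image_subset_image hS)
  have h4 : (S.card : ℝ) ^ 2 ≤ ((S.image mk).card : ℝ) * ((spairs S).card : ℝ) := by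
    rw [h2]
    nth_rw 1 [h1]
    push_cast
    exact sq_sum_le_card_mul_sum_sq
  exact h4.trans (mul_le_mul_of_nonneg_right h3 (by positivity))

/-- the similar pairs of `S` are counted by the homotheties with ratio in `Λ` -/
lemma spairs_le (X : Finset ℝ) (S : Finset (Finset ℝ)) (hS : S ⊆ X.powersetCard 3)
    (Λ : Finset ℝ)
    (hΛ : ∀ A ∈ S, ∀ B ∈ S, ∀ l t : ℝ, 0 < l → A.image (fun x => l * x + t) = B → l ∈ Λ) :
    (spairs S).card ≤ ∑ φ ∈ (maps X).filter (fun φ => φ.1 ∈ Λ), (Bs X φ).card.choose 3 := by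
  classical
  have hsub : spairs S ⊆ (((maps X).filter (fun φ => φ.1 ∈ Λ)).sigma
      (fun φ => (Bs X φ).powersetCard 3)).image
      (fun s => (s.2, s.2.image (fun x => s.1.1 * x + s.1.2))) := by
    rintro ⟨A, B⟩ h
    unfold spairs at h
    rw [mem_filter, mem_product] at h
    obtain ⟨⟨hAS, hBS⟩, hAB⟩ := h
    simp only at hAS hBS hAB
    obtain ⟨hA, hAk⟩ := mem_powersetCard.1 (hS hAS)
    obtain ⟨hB, hBk⟩ := mem_powersetCard.1 (hS hBS)
    obtain ⟨l, t, hl, rfl⟩ := Quotient.exact hAB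
    have hlΛ := hΛ A hAS _ hBS l t hl rfl
    have h2 : 1 < A.card := by omega
    obtain ⟨x, hx, y, hy, hne⟩ := one_lt_card.1 h2
    wlog hxy : x < y generalizing x y
    · exact this y hy x hx hne.symm (lt_of_le_of_ne (not_lt.1 hxy) hne.symm)
    rw [mem_image]
    refine ⟨⟨(l, t), A⟩, ?_, rfl⟩
    rw [mem_sigma, mem_powersetCard, mem_filter]
    refine ⟨⟨?_, hlΛ⟩, ?_, hAk⟩
    · unfold maps
      rw [mem_image]
      refine ⟨((x, y), (l * x + t, l * y + t)), ?_, mapOf_eq hxy rfl rfl⟩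
      rw [mem_product, mem_prs, mem_prs]
      refine ⟨⟨hA hx, hA hy, hxy⟩, ⟨hB (mem_image_of_mem _ hx), hB (mem_image_of_mem _ hy), ?_⟩⟩
      simp only
      nlinarith
    · intro z hz
      rw [mem_Bs]
      exact ⟨hA hz, hB (mem_image_of_mem (fun x => l * x + t) hz)⟩
  calc (spairs S).card ≤ _ := card_le_card hsub
    _ ≤ (((maps X).filter (fun φ => φ.1 ∈ Λ)).sigma (fun φ => (Bs X φ).powersetCard 3)).card :=
        card_image_le
    _ = ∑ φ ∈ (maps X).filter (fun φ => φ.1 ∈ Λ), (Bs X φ).card.choose 3 := by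
        rw [card_sigma]
        simp [card_powersetCard]

lemma choose3 (b : ℕ) : (b.choose 3 : ℝ) ≤ ((b - 1 : ℕ) : ℝ) ^ 3 / 6 := by
  rcases Nat.lt_or_ge b 3 with h | h
  · rw [Nat.choose_eq_zero_of_lt h]
    simp only [Nat.cast_zero]
    positivity
  · obtain ⟨c, rfl⟩ : ∃ c, b = c + 3 := ⟨b - 3, by omega⟩
    have h1 : (c + 3).choose 3 * 6 = (c + 3) * (c + 2) * (c + 1) := by
      have h2 := Nat.descFactorial_eq_factorial_mul_choose (c + 3) 3
      simp only [Nat.descFactorial] at h2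
      have h3 : (3 : ℕ).factorial = 6 := rfl
      rw [h3] at h2
      have e1 : c + 3 - 2 = c + 1 := by omega
      have e2 : c + 3 - 1 = c + 2 := by omega
      have e3 : c + 3 - 0 = c + 3 := by omega
      rw [e1, e2, e3] at h2
      linarith
    have h4 : (((c + 3).choose 3 : ℕ) : ℝ) * 6 = ((c : ℝ) + 3) * (c + 2) * (c + 1) := by
      exact_mod_cast h1
    have e : (c + 3 - 1 : ℕ) = c + 2 := by omega
    rw [e]
    push_cast
    nlinarith [h4, (Nat.cast_nonneg c : (0 : ℝ) ≤ c)]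

/-- for one ratio the sum of the richness is at most `n ^ 2` -/
lemma one_slope (X : Finset ℝ) (F : Finset (ℝ × ℝ)) (l : ℝ) (hF : ∀ φ ∈ F, φ.1 = l) :
    ∑ φ ∈ F, (Bs X φ).card ≤ X.card ^ 2 := by
  classical
  have h1 : ∑ φ ∈ F, (Bs X φ).card = (F.sigma (fun φ => Bs X φ)).card := by
    rw [card_sigma]
  rw [h1, sq, ← card_product]
  apply card_le_card_of_injOn (fun s => (s.2, s.1.1 * s.2 + s.1.2))
  · rintro ⟨φ, x⟩ hs
    rw [mem_coe, mem_sigma, mem_Bs] at hs
    rw [mem_coe, mem_product]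
    exact hs.2
  · rintro ⟨φ, x⟩ hs ⟨ψ, y⟩ ht h
    rw [mem_coe, mem_sigma] at hs ht
    simp only [Prod.mk.injEq] at h hs ht
    obtain ⟨h2, h3⟩ := h
    subst h2
    have e1 := hF φ hs.1
    have e2 := hF ψ ht.1
    have e3 : φ = ψ := by
      ext
      · rw [e1, e2]
      · rw [e1, e2] at h3
        linarith
    subst e3
    rfl

/-- the poor maps -/
lemma poor (X : Finset ℝ) (Λ : Finset ℝ) (G : ℕ) (hΛ : Λ.card ≤ G ^ 2) :
    ∑ φ ∈ ((maps X).filter (fun φ => φ.1 ∈ Λ)).filter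
        (fun φ => ¬ X.card ≤ ((Bs X φ).card - 1) * G),
      (((Bs X φ).card - 1 : ℕ) : ℝ) ^ 3 ≤ (X.card : ℝ) ^ 4 := by
  classical
  rcases Nat.eq_zero_or_pos G with h0 | hG
  · rw [h0] at hΛ
    have : Λ = ∅ := by
      rw [← card_eq_zero]; omega
    subst this
    simp
  have hG' : (0 : ℝ) < G := by exact_mod_cast hG
  set n : ℝ := (X.card : ℝ) with hn
  set F := ((maps X).filter (fun φ => φ.1 ∈ Λ)).filter
        (fun φ => ¬ X.card ≤ ((Bs X φ).card - 1) * G) with hF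
  have h1 : ∀ φ ∈ F, (((Bs X φ).card - 1 : ℕ) : ℝ) ^ 3 ≤ (n / G) ^ 2 * ((Bs X φ).card : ℝ) := by
    intro φ hφ
    rw [hF, mem_filter] at hφ
    have h2 : ((Bs X φ).card - 1) * G < X.card := not_le.1 hφ.2
    have h3 : (((Bs X φ).card - 1 : ℕ) : ℝ) ≤ n / G := by
      rw [le_div_iff₀ hG', hn]
      exact_mod_cast h2.le
    have h4 : (((Bs X φ).card - 1 : ℕ) : ℝ) ≤ ((Bs X φ).card : ℝ) := by
      exact_mod_cast Nat.sub_le _ _
    calc (((Bs X φ).card - 1 : ℕ) : ℝ) ^ 3 =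
        (((Bs X φ).card - 1 : ℕ) : ℝ) ^ 2 * (((Bs X φ).card - 1 : ℕ) : ℝ) := by ring
      _ ≤ (n / G) ^ 2 * ((Bs X φ).card : ℝ) := by
        apply mul_le_mul (pow_le_pow_left₀ (by positivity) h3 2) h4 (by positivity) (by positivity)
  have h2 : ∑ φ ∈ F, ((Bs X φ).card : ℝ) ≤ (G : ℝ) ^ 2 * n ^ 2 := by
    have h3 : ∑ φ ∈ F, (Bs X φ).card = ∑ l ∈ Λ, ∑ φ ∈ F.filter (fun φ => φ.1 = l),
        (Bs X φ).card := by
      rw [sum_fiberwise_of_maps_to (t := Λ) (g := fun φ : ℝ × ℝ => φ.1)]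
      intro φ hφ
      rw [hF, mem_filter, mem_filter] at hφ
      exact hφ.1.2
    have h4 : ∑ φ ∈ F, (Bs X φ).card ≤ Λ.card * X.card ^ 2 := by
      rw [h3, ← smul_eq_mul, ← sum_const]
      apply sum_le_sum
      intro l _
      apply one_slope X _ l
      intro φ hφ
      exact (mem_filter.1 hφ).2
    have h5 : ∑ φ ∈ F, (Bs X φ).card ≤ G ^ 2 * X.card ^ 2 :=
      h4.trans (Nat.mul_le_mul_right _ hΛ)
    rw [hn]
    exact_mod_cast h5
  calc ∑ φ ∈ F, (((Bs X φ).card - 1 : ℕ) : ℝ) ^ 3 ≤ ∑ φ ∈ F, (n / G) ^ 2 * ((Bs X φ).card : ℝ) :=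
        sum_le_sum h1
    _ = (n / G) ^ 2 * ∑ φ ∈ F, ((Bs X φ).card : ℝ) := by rw [mul_sum]
    _ ≤ (n / G) ^ 2 * ((G : ℝ) ^ 2 * n ^ 2) := mul_le_mul_of_nonneg_left h2 (by positivity)
    _ = n ^ 4 := by
        field_simp

/-- the main estimate -/
theorem few_slopes (X : Finset ℝ) (S : Finset (Finset ℝ)) (hS : S ⊆ X.powersetCard 3)
    (Λ : Finset ℝ) (G : ℕ) (hΛc : Λ.card ≤ G ^ 2)
    (hΛ : ∀ A ∈ S, ∀ B ∈ S, ∀ l t : ℝ, 0 < l → A.image (fun x => l * x + t) = B → l ∈ Λ) :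
    (S.card : ℝ) ^ 2 ≤ (classCount 3 X : ℝ) *
      ((X.card : ℝ) ^ 4 * (1 + 32 * (1 + Real.log (4 * G : ℕ))) / 6) := by
  classical
  have h1 : ((spairs S).card : ℝ) ≤
      ∑ φ ∈ (maps X).filter (fun φ => φ.1 ∈ Λ), ((Bs X φ).card.choose 3 : ℝ) := by
    exact_mod_cast spairs_le X S hS Λ hΛ
  have h2 : ∑ φ ∈ (maps X).filter (fun φ => φ.1 ∈ Λ), ((Bs X φ).card.choose 3 : ℝ) ≤
      ∑ φ ∈ (maps X).filter (fun φ => φ.1 ∈ Λ), (((Bs X φ).card - 1 : ℕ) : ℝ) ^ 3 / 6 :=
    sum_le_sum fun φ _ => choose3 _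
  have e := (sum_filter_add_sum_filter_not ((maps X).filter (fun φ => φ.1 ∈ Λ))
    (fun φ => X.card ≤ ((Bs X φ).card - 1) * G)
    (fun φ => (((Bs X φ).card - 1 : ℕ) : ℝ) ^ 3)).symm
  rw [← sum_div, e] at h2
  have h3 := poor X Λ G hΛc
  have h4 : ∑ φ ∈ ((maps X).filter (fun φ => φ.1 ∈ Λ)).filter
        (fun φ => X.card ≤ ((Bs X φ).card - 1) * G), (((Bs X φ).card - 1 : ℕ) : ℝ) ^ 3 ≤
      32 * (X.card : ℝ) ^ 4 * (1 + Real.log (4 * G : ℕ)) := by
    refine le_trans (sum_le_sum_of_subset_of_nonneg ?_ (fun φ _ _ => by positivity))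
      (sum_rich3 X G)
    intro φ hφ
    rw [mem_filter, mem_filter] at hφ
    rw [mem_filter]
    exact ⟨hφ.1.1, hφ.2⟩
  have h5 : ((spairs S).card : ℝ) ≤
      (X.card : ℝ) ^ 4 * (1 + 32 * (1 + Real.log (4 * G : ℕ))) / 6 := by
    refine (h1.trans h2).trans ?_
    apply div_le_div_of_nonneg_right _ (by norm_num)
    calc _ ≤ 32 * (X.card : ℝ) ^ 4 * (1 + Real.log (4 * G : ℕ)) + (X.card : ℝ) ^ 4 := add_le_add h4 h3
      _ = _ := by ring
  exact (cauchyS X S hS).trans (mul_le_mul_of_nonneg_left h5 (by positivity))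

end Pool.Agent.Lib.MP_9322ca_co
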