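import Pool.Agent.Results.MP_9322ca_co.ThetaKGeFour

/-!
# Rich homotheties, third powers

For a finite set `X` of `n` reals and a number `G`, the homotheties that map at least `n / G` points
of `X` into `X` have a sum of cubes of richness at most `C n ^ 4 (1 + log G)`.
-/

set_option autoImplicit false

namespace Pool.Agent.Lib.MP_9322ca_co

open Finset
open Pool.Agent.Results.MP_9322ca_co.ThetaKGeFour

/-- the gap of a pair of pairs -/
noncomputable def gp (X : Finset ℝ) (q : (ℝ × ℝ) × (ℝ × ℝ)) : ℕ :=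
  (rk X q.1.2 - rk X q.1.1) + (rk X q.2.2 - rk X q.2.1)

/-- the truncated weight of a pair of pairs -/
noncomputable def wt2 (X : Finset ℝ) (G : ℕ) (q : (ℝ × ℝ) × (ℝ × ℝ)) : ℝ :=
  if gp X q ≤ 4 * G then 1 / (gp X q : ℝ) ^ 2 else 0

lemma wt2_nonneg (X : Finset ℝ) (G : ℕ) (q : (ℝ × ℝ) × (ℝ × ℝ)) : 0 ≤ wt2 X G q := by
  unfold wt2; split_ifs <;> positivity

lemma tangent2 (g s : ℝ) (hg : 0 < g) (hs : 0 < s) : 3 / s ^ 2 - 2 * g / s ^ 3 ≤ 1 / g ^ 2 := by
  rw [div_sub_div _ _ (by positivity) (by positivity), div_le_div_iff₀ (by positivity) (by positivity)]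
  have : 0 ≤ s ^ 2 * ((s - g) ^ 2 * (s + 2 * g)) := by positivity
  nlinarith [this]

lemma convex_sum2 (I : Finset ℕ) (g : ℕ → ℝ) (hg : ∀ i ∈ I, 0 < g i) (G : ℝ) (hG : 0 < G)
    (hsum : ∑ i ∈ I, g i ≤ G) :
    (I.card : ℝ) ^ 3 ≤ G ^ 2 * ∑ i ∈ I, 1 / (g i) ^ 2 := by
  rcases Nat.eq_zero_or_pos I.card with h0 | hm
  · rw [h0]
    have : 0 ≤ ∑ i ∈ I, 1 / (g i) ^ 2 := sum_nonneg fun i _ => by positivity
    have h2 : 0 ≤ G ^ 2 * ∑ i ∈ I, 1 / (g i) ^ 2 := by positivity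
    simpa using h2
  have hm' : (0 : ℝ) < I.card := by exact_mod_cast hm
  set m : ℝ := (I.card : ℝ) with hmdef
  set s : ℝ := G / m with hs
  have hs0 : 0 < s := by positivity
  have h1 : ∑ i ∈ I, (3 / s ^ 2 - 2 * g i / s ^ 3) ≤ ∑ i ∈ I, 1 / (g i) ^ 2 :=
    sum_le_sum fun i hi => tangent2 (g i) s (hg i hi) hs0
  have h2 : ∑ i ∈ I, (3 / s ^ 2 - 2 * g i / s ^ 3) =
      m * (3 / s ^ 2) - 2 / s ^ 3 * ∑ i ∈ I, g i := by
    rw [sum_sub_distrib, sum_const, nsmul_eq_mul, mul_sum]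
    congr 1
    apply sum_congr rfl
    intro i _
    ring
  have h3 : 2 / s ^ 3 * ∑ i ∈ I, g i ≤ 2 / s ^ 3 * G := by
    apply mul_le_mul_of_nonneg_left hsum (by positivity)
  have h4 : m * (3 / s ^ 2) - 2 / s ^ 3 * G = m ^ 3 / G ^ 2 := by
    rw [hs]
    field_simp
    ring
  have h5 : m ^ 3 / G ^ 2 ≤ ∑ i ∈ I, 1 / (g i) ^ 2 := by
    rw [← h4]; linarith
  rw [div_le_iff₀ (by positivity)] at h5
  linarith

/-- a homothety of richness `m + 1` with `n ≤ m G` has `m ^ 3` at most `32 n ^ 2` times the sum of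
the truncated weights of the pairs of pairs which it joins -/
lemma rich3 (X : Finset ℝ) (φ : ℝ × ℝ) (hφ : 0 < φ.1) (G : ℕ)
    (hG : X.card ≤ ((Bs X φ).card - 1) * G) :
    (((Bs X φ).card - 1 : ℕ) : ℝ) ^ 3 ≤ 32 * (X.card : ℝ) ^ 2 *
      ∑ q ∈ ((prs X) ×ˢ (prs X)).filter (fun q => mapOf q = φ), wt2 X G q := by
  set B := Bs X φ with hB
  set m := B.card - 1 with hm
  rcases Nat.eq_zero_or_pos m with h0 | hmpos
  · rw [h0]
    have : 0 ≤ ∑ q ∈ ((prs X) ×ˢ (prs X)).filter (fun q => mapOf q = φ), wt2 X G q :=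
      sum_nonneg fun q _ => wt2_nonneg X G q
    have h2 : (0 : ℝ) ≤ 32 * (X.card : ℝ) ^ 2 := by positivity
    simpa using mul_nonneg h2 this
  have hX : 0 < X.card := by
    have h1 : B.card ≤ X.card := card_le_card (filter_subset _ _)
    omega
  have hG0 : 0 < G := by
    rcases Nat.eq_zero_or_pos G with h | h
    · rw [h] at hG; omega
    · exact h
  let β : ℕ → ℝ := fun i => if h : i < B.card then B.orderEmbOfFin rfl ⟨i, h⟩ else 0
  have hβmem : ∀ i, i < B.card → β i ∈ B := by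
    intro i hi
    simp only [β, dif_pos hi]
    exact orderEmbOfFin_mem _ _ _
  have hβlt : ∀ i j, i < j → j < B.card → β i < β j := by
    intro i j hij hj
    have hi : i < B.card := by omega
    simp only [β, dif_pos hi, dif_pos hj]
    exact (B.orderEmbOfFin rfl).strictMono hij
  let f : ℝ → ℝ := fun x => φ.1 * x + φ.2
  have hf : ∀ x y, x < y → f x < f y := by
    intro x y h
    simp only [f]
    nlinarith
  let Q : ℕ → (ℝ × ℝ) × (ℝ × ℝ) := fun i => ((β i, β (i + 1)), (f (β i), f (β (i + 1))))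
  have hQmem : ∀ i ∈ range m, Q i ∈ ((prs X) ×ˢ (prs X)).filter (fun q => mapOf q = φ) := by
    intro i hi
    rw [mem_range] at hi
    have h1 := hβmem i (by omega)
    have h2 := hβmem (i + 1) (by omega)
    have h3 := hβlt i (i + 1) (by omega) (by omega)
    rw [hB, mem_Bs] at h1 h2
    rw [mem_filter, mem_product, mem_prs, mem_prs]
    refine ⟨⟨⟨h1.1, h2.1, h3⟩, ⟨h1.2, h2.2, hf _ _ h3⟩⟩, ?_⟩
    exact mapOf_eq h3 rfl rfl
  have hQinj : Set.InjOn Q (range m : Finset ℕ) := by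
    intro i hi j hj h
    simp only [coe_range, Set.mem_Iio] at hi hj
    have h1 : β i = β j := congrArg (fun q => q.1.1) h
    by_contra hne
    rcases lt_or_gt_of_ne hne with hlt | hlt
    · exact absurd h1 (hβlt i j hlt (by omega)).ne
    · exact absurd h1 (hβlt j i hlt (by omega)).ne'
  -- the gaps
  let g : ℕ → ℝ := fun i => (gp X (Q i) : ℝ)
  have hrk : ∀ i ∈ range m, rk X (β i) < rk X (β (i + 1)) ∧
      rk X (f (β i)) < rk X (f (β (i + 1))) := by
    intro i hi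
    rw [mem_range] at hi
    have h1 := hβmem i (by omega)
    have h3 := hβlt i (i + 1) (by omega) (by omega)
    rw [hB, mem_Bs] at h1
    exact ⟨rk_lt h1.1 h3, rk_lt h1.2 (hf _ _ h3)⟩
  have hgpos : ∀ i ∈ range m, 0 < g i := by
    intro i hi
    have := hrk i hi
    simp only [g, gp, Q]
    have h : 0 < (rk X (β (i + 1)) - rk X (β i)) + (rk X (f (β (i + 1))) - rk X (f (β i))) := by
      omega
    exact_mod_cast h
  have hgsum : ∑ i ∈ range m, g i ≤ 2 * X.card := by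
    have h1 : ∑ i ∈ range m, g i = ∑ i ∈ range m,
        (((rk X (β (i + 1)) : ℝ) + rk X (f (β (i + 1)))) - ((rk X (β i) : ℝ) + rk X (f (β i)))) := by
      apply sum_congr rfl
      intro i hi
      have := hrk i hi
      simp only [g, gp, Q]
      rw [Nat.cast_add, Nat.cast_sub this.1.le, Nat.cast_sub this.2.le]
      ring
    rw [h1, sum_range_sub (fun i => ((rk X (β i) : ℝ) + rk X (f (β i))))]
    have h2 := hβmem m (by omega)
    rw [hB, mem_Bs] at h2
    have h3 : (rk X (β m) : ℝ) ≤ X.card := by exact_mod_cast (rk_lt_card h2.1).le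
    have h4 : (rk X (f (β m)) : ℝ) ≤ X.card := by exact_mod_cast (rk_lt_card h2.2).le
    have h5 : (0 : ℝ) ≤ (rk X (β 0) : ℝ) + rk X (f (β 0)) := by positivity
    linarith
  -- the short gaps
  set I := (range m).filter (fun i => gp X (Q i) ≤ 4 * G) with hI
  have hIsum : ∑ i ∈ I, g i ≤ 2 * X.card :=
    (sum_le_sum_of_subset_of_nonneg (filter_subset _ _)
      (fun i hi _ => (hgpos i hi).le)).trans hgsum
  have hIcard : (m : ℝ) / 2 ≤ I.card := by
    have h1 : ((range m).filter (fun i => ¬ gp X (Q i) ≤ 4 * G)).card * (4 * G) ≤ 2 * X.card := by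
      have h2 : ∑ i ∈ (range m).filter (fun i => ¬ gp X (Q i) ≤ 4 * G), ((4 * G : ℕ) : ℝ) ≤
          ∑ i ∈ range m, g i := by
        refine (sum_le_sum (fun i hi => ?_)).trans
          (sum_le_sum_of_subset_of_nonneg (filter_subset _ _) (fun i hi _ => (hgpos i hi).le))
        rw [mem_filter] at hi
        simp only [g]
        exact_mod_cast (not_le.1 hi.2).le
      rw [sum_const, nsmul_eq_mul] at h2
      have h3 := h2.trans hgsum
      exact_mod_cast h3
    have h2 : I.card + ((range m).filter (fun i => ¬ gp X (Q i) ≤ 4 * G)).card = m := by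
      rw [hI, card_filter_add_card_filter_not, card_range]
    set k := ((range m).filter (fun i => ¬ gp X (Q i) ≤ 4 * G)).card with hk
    have h3 : k * (4 * G) ≤ 2 * (m * G) := h1.trans (Nat.mul_le_mul_left 2 hG)
    have h4 : 2 * k ≤ m := by
      have h5 : (2 * k) * (2 * G) ≤ m * (2 * G) := by nlinarith
      exact Nat.le_of_mul_le_mul_right h5 (by omega)
    have h5 : m ≤ 2 * I.card := by omega
    have h6 : (m : ℝ) ≤ 2 * I.card := by exact_mod_cast h5
    linarith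
  have hconv := convex_sum2 I g (fun i hi => hgpos i (mem_of_mem_filter i hi)) (2 * X.card)
    (by positivity) hIsum
  have hle : ∑ i ∈ I, 1 / (g i) ^ 2 ≤
      ∑ q ∈ ((prs X) ×ˢ (prs X)).filter (fun q => mapOf q = φ), wt2 X G q := by
    have e1 : ∑ i ∈ I, 1 / (g i) ^ 2 = ∑ i ∈ I, wt2 X G (Q i) := by
      apply sum_congr rfl
      intro i hi
      rw [hI, mem_filter] at hi
      simp only [wt2, g, if_pos hi.2]
    rw [e1, ← sum_image (f := wt2 X G) (hQinj.mono (by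
      intro i hi
      exact mem_of_mem_filter i hi))]
    apply sum_le_sum_of_subset_of_nonneg
    · intro q hq
      rw [mem_image] at hq
      obtain ⟨i, hi, rfl⟩ := hq
      exact hQmem i (mem_of_mem_filter i hi)
    · intro q _ _
      exact wt2_nonneg X G q
  have h1 : ((m : ℝ) / 2) ^ 3 ≤ (I.card : ℝ) ^ 3 := pow_le_pow_left₀ (by positivity) hIcard 3
  have h2 : (0 : ℝ) ≤ (2 * X.card : ℝ) ^ 2 := by positivity
  have h3 := (h1.trans hconv).trans (mul_le_mul_of_nonneg_left hle h2)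
  calc (m : ℝ) ^ 3 = 8 * ((m : ℝ) / 2) ^ 3 := by ring
    _ ≤ 8 * ((2 * X.card : ℝ) ^ 2 *
        ∑ q ∈ ((prs X) ×ˢ (prs X)).filter (fun q => mapOf q = φ), wt2 X G q) := by linarith
    _ = _ := by ring

/-! ### The sum of the truncated weights -/

lemma harm (N : ℕ) : ∑ s ∈ range N, (1 : ℝ) / ((s + 1 : ℕ) : ℝ) ≤ 1 + Real.log N := by
  have h := harmonic_le_one_add_log N
  have e : ((harmonic N : ℚ) : ℝ) = ∑ s ∈ range N, (1 : ℝ) / ((s + 1 : ℕ) : ℝ) := by
    unfold harmonic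
    push_cast
    apply sum_congr rfl
    intro i _
    rw [one_div]
  rw [← e]; exact h

/-- the double sum of the truncated weights -/
lemma double_sum2 (N G : ℕ) :
    ∑ i ∈ range N, ∑ j ∈ range N,
      (if (i + 1) + (j + 1) ≤ 4 * G then (1 : ℝ) / (((i + 1) + (j + 1) : ℕ) : ℝ) ^ 2 else 0) ≤
      1 + Real.log (4 * G : ℕ) := by
  -- for fixed `i`, the sum over `j` is at most `1 / (i + 1)`, and `i + 1 ≤ 4 G`
  have h1 : ∀ i ∈ range N, ∑ j ∈ range N,
      (if (i + 1) + (j + 1) ≤ 4 * G then (1 : ℝ) / (((i + 1) + (j + 1) : ℕ) : ℝ) ^ 2 else 0) ≤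
      if i < 4 * G then (1 : ℝ) / ((i + 1 : ℕ) : ℝ) else 0 := by
    intro i _
    split_ifs with hi
    · have h2 : ∀ j ∈ range N,
          (if (i + 1) + (j + 1) ≤ 4 * G then (1 : ℝ) / (((i + 1) + (j + 1) : ℕ) : ℝ) ^ 2 else 0) ≤
          1 / (((i + 1 : ℕ) : ℝ) + j) - 1 / (((i + 1 : ℕ) : ℝ) + (j + 1 : ℕ)) := by
        intro j _
        have h3 : (0 : ℝ) < ((i + 1 : ℕ) : ℝ) + j := by positivity
        have h4 : (1 : ℝ) / (((i + 1) + (j + 1) : ℕ) : ℝ) ^ 2 ≤
            1 / (((i + 1 : ℕ) : ℝ) + j) - 1 / (((i + 1 : ℕ) : ℝ) + (j + 1 : ℕ)) := by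
          push_cast
          rw [div_sub_div _ _ (by positivity) (by positivity),
            div_le_div_iff₀ (by positivity) (by positivity)]
          nlinarith [h3]
        split_ifs
        · exact h4
        · refine le_trans (by positivity) h4
      refine (sum_le_sum h2).trans ?_
      have h5 := sum_range_sub' (fun j : ℕ => 1 / (((i + 1 : ℕ) : ℝ) + j)) N
      rw [h5]
      simp only [Nat.cast_zero, add_zero]
      have : (0 : ℝ) ≤ 1 / (((i + 1 : ℕ) : ℝ) + N) := by positivity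
      linarith
    · apply le_of_eq
      apply sum_eq_zero
      intro j _
      rw [if_neg]
      omega
  refine (sum_le_sum h1).trans ?_
  rw [← sum_filter]
  refine le_trans (sum_le_sum_of_subset_of_nonneg (t := range (4 * G)) ?_ ?_) (harm (4 * G))
  · intro i hi
    rw [mem_filter] at hi
    rw [mem_range]
    exact hi.2
  · intro i _ _
    positivity

lemma sum_wt2 (X : Finset ℝ) (G : ℕ) :
    ∑ q ∈ (prs X) ×ˢ (prs X), wt2 X G q ≤ (X.card : ℝ) ^ 2 * (1 + Real.log (4 * G : ℕ)) := by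
  rw [sum_product]
  have h1 : ∀ p ∈ prs X, ∑ q ∈ prs X, wt2 X G (p, q) ≤
      X.card * ∑ j ∈ range X.card,
        (if (rk X p.2 - rk X p.1) + (j + 1) ≤ 4 * G then
          (1 : ℝ) / (((rk X p.2 - rk X p.1) + (j + 1) : ℕ) : ℝ) ^ 2 else 0) := by
    intro p _
    exact sum_prs X (fun g => if (rk X p.2 - rk X p.1) + g ≤ 4 * G then
      (1 : ℝ) / (((rk X p.2 - rk X p.1) + g : ℕ) : ℝ) ^ 2 else 0)
      (fun i => by split_ifs <;> positivity)
  refine (sum_le_sum h1).trans ?_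
  rw [← mul_sum]
  have h2 := sum_prs X (fun g => ∑ j ∈ range X.card,
        (if g + (j + 1) ≤ 4 * G then (1 : ℝ) / ((g + (j + 1) : ℕ) : ℝ) ^ 2 else 0))
        (fun i => sum_nonneg fun j _ => by split_ifs <;> positivity)
  have h3 := double_sum2 X.card G
  have hc : (0 : ℝ) ≤ X.card := by positivity
  calc (X.card : ℝ) * ∑ p ∈ prs X, ∑ j ∈ range X.card,
        (if (rk X p.2 - rk X p.1) + (j + 1) ≤ 4 * G then
          (1 : ℝ) / (((rk X p.2 - rk X p.1) + (j + 1) : ℕ) : ℝ) ^ 2 else 0)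
      ≤ X.card * (X.card * ∑ i ∈ range X.card, ∑ j ∈ range X.card,
        (if (i + 1) + (j + 1) ≤ 4 * G then
          (1 : ℝ) / (((i + 1) + (j + 1) : ℕ) : ℝ) ^ 2 else 0)) := by
        exact mul_le_mul_of_nonneg_left h2 hc
    _ ≤ X.card * (X.card * (1 + Real.log (4 * G : ℕ))) := by gcongr
    _ = _ := by ring

/-- the sum of the cubes over the rich maps -/
lemma sum_rich3 (X : Finset ℝ) (G : ℕ) :
    ∑ φ ∈ (maps X).filter (fun φ => X.card ≤ ((Bs X φ).card - 1) * G),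
      (((Bs X φ).card - 1 : ℕ) : ℝ) ^ 3 ≤ 32 * (X.card : ℝ) ^ 4 * (1 + Real.log (4 * G : ℕ)) := by
  have h1 : ∑ φ ∈ (maps X).filter (fun φ => X.card ≤ ((Bs X φ).card - 1) * G),
      (((Bs X φ).card - 1 : ℕ) : ℝ) ^ 3 ≤
      ∑ φ ∈ (maps X).filter (fun φ => X.card ≤ ((Bs X φ).card - 1) * G), 32 * (X.card : ℝ) ^ 2 *
        ∑ q ∈ ((prs X) ×ˢ (prs X)).filter (fun q => mapOf q = φ), wt2 X G q := by
    apply sum_le_sum
    intro φ hφ
    rw [mem_filter] at hφ
    exact rich3 X φ (maps_pos hφ.1) G hφ.2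
  have h2 : ∑ φ ∈ (maps X).filter (fun φ => X.card ≤ ((Bs X φ).card - 1) * G),
        ∑ q ∈ ((prs X) ×ˢ (prs X)).filter (fun q => mapOf q = φ), wt2 X G q ≤
      ∑ φ ∈ maps X, ∑ q ∈ ((prs X) ×ˢ (prs X)).filter (fun q => mapOf q = φ), wt2 X G q :=
    sum_le_sum_of_subset_of_nonneg (filter_subset _ _)
      (fun φ _ _ => sum_nonneg fun q _ => wt2_nonneg X G q)
  have h0 : ∑ φ ∈ maps X, ∑ q ∈ ((prs X) ×ˢ (prs X)).filter (fun q => mapOf q = φ), wt2 X G q =
      ∑ q ∈ (prs X) ×ˢ (prs X), wt2 X G q :=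
    sum_fiberwise_of_maps_to (t := maps X)
      (fun q hq => mem_image_of_mem mapOf hq) (fun q => wt2 X G q)
  rw [← mul_sum] at h1
  rw [h0] at h2
  refine h1.trans ?_
  have h3 := h2.trans (sum_wt2 X G)
  calc 32 * (X.card : ℝ) ^ 2 * _ ≤
      32 * (X.card : ℝ) ^ 2 * ((X.card : ℝ) ^ 2 * (1 + Real.log (4 * G : ℕ))) :=
        mul_le_mul_of_nonneg_left h3 (by positivity)
    _ = _ := by ring

end Pool.Agent.Lib.MP_9322ca_co
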